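import Mathlib
import Pool.Agent.R634.CRem.Final

/-!
# MP_ee90f2: a non-trivial `c`-removable continuum in the plane

There is a non-trivial continuum `K ⊆ ℝ²`, in fact the graph over `[0, 1]` of a Lipschitz function,
which is `c`-removable: every continuous `f : ℝ² → ℝ` that is locally convex on `ℝ² \ K` is convex.
(`LocallyConvexOn` and `CRemovable` are defined in `Pool.Agent.R634.CRem.Basic`.)
-/

namespace Pool.Agent.Results.MP_ee90f2_an.LipschitzArc

open Pool.Agent.R634.CRem

theorem result : ∃ K : Set (ℝ × ℝ), IsCompact K ∧ IsConnected K ∧ K.Nontrivial ∧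
    (∃ k : ℝ → ℝ, LipschitzWith 2 k ∧ K = {p | p.1 ∈ Set.Icc (0:ℝ) 1 ∧ p.2 = k p.1}) ∧
    CRemovable K :=
  ⟨K, isCompact_K, isConnected_K, nontrivial_K, ⟨kf, lipschitz_kf, rfl⟩, cRemovable_K⟩

end Pool.Agent.Results.MP_ee90f2_an.LipschitzArc
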